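import Mathlib
import Pool.Graph.R_seed8.R419.KL.Sel3

/-!
# The twists by all the monomials: definitions
-/

set_option autoImplicit false

namespace Pool.Agent.H451.TB

open NumberField WeierstrassCurve
open Pool.Agent.TH841.SH.D (Pt act Gal Coch)
open Pool.Agent.TH841.NF.D (IsShaCoc Sha)
open scoped Classical

/-- The curve `E_D : y² + D y = x³`. -/
def curve {K : Type} [Field K] (D : K) : WeierstrassCurve K := ⟨0, 0, D, 0, 0⟩

section
variable {K : Type} [Field K] [NumberField K]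

/-- The group of the continuous cocycles of the absolute Galois group of `K` with values in `E_D[3]`
that are coboundaries in `E_D` at all the places of `K`. -/
def Cocycles (D : K) : AddSubgroup (Coch (curve D)) where
  carrier := {f | IsShaCoc (curve D) f ∧ ∀ σ, 3 • f σ = 0}
  zero_mem' := (Pool.Agent.R419.KL.coc3 D).zero_mem'
  add_mem' := (Pool.Agent.R419.KL.coc3 D).add_mem'
  neg_mem' := (Pool.Agent.R419.KL.coc3 D).neg_mem'

/-- The group of the coboundaries of the points of `E_D[3]`. -/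
def Coboundaries (D : K) : AddSubgroup (Coch (curve D)) where
  carrier := {f | ∃ P : Pt (curve D) (AlgebraicClosure K), 3 • P = 0 ∧
    ∀ σ : Gal K, f σ = act (curve D) σ.toAlgHom P - P}
  zero_mem' := (Pool.Agent.R419.KL.cob3 D).zero_mem'
  add_mem' := (Pool.Agent.R419.KL.cob3 D).add_mem'
  neg_mem' := (Pool.Agent.R419.KL.cob3 D).neg_mem'

/-- The `3`-Selmer group of `E_D` over `K`: the kernel of `H¹(K, E_D[3]) → ∏ H¹(K_v, E_D)`. -/
def Sel3 (D : K) : Type := Cocycles D ⧸ (Coboundaries D).addSubgroupOf (Cocycles D)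

/-- The Selmer group of the endomorphism `√-3`: the continuous cocycles with values in its kernel
`{0, (0, 0), (0, -D)}` (a trivial Galois module) that are coboundaries in `E_D` at all the places. -/
def SelRoot (D : K) : Set (Coch (curve D)) :=
  {f | IsShaCoc (curve D) f ∧ ∀ σ, f σ = 0 ∨ ∃ y h, f σ = Affine.Point.some 0 y h}

/-- The rank of `E_D(K)` over `ℤ`. -/
noncomputable def rank (D : K) : ℕ := Module.finrank ℤ (curve D).toAffine.Point

/-- The tuples `a` of squarefree elements of `𝓞 K` that are `1` modulo `3`, with `N(a l) ≤ X` and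
`N(a l) = r l` modulo `9` for all `l`. -/
def Box (K : Type) [Field K] [NumberField K] {M : ℕ} (r : Fin M → ℕ) (X : ℕ) :
    Set (Fin M → 𝓞 K) :=
  {a | ∀ l, (3 : 𝓞 K) ∣ a l - 1 ∧ Squarefree (a l) ∧ Algebra.norm ℤ (a l) ≤ X ∧
    Algebra.norm ℤ (a l) % 9 = r l}

end

/-- The twist `∏ a_l ^ (e_l)`, `e_l ∈ {0, 1, 2}`. -/
def twist {R : Type} [CommRing R] {M : ℕ} (a : Fin M → R) (e : Fin M → ZMod 3) : R :=
  ∏ l, a l ^ (e l).val

/-- The norm of `∏ a_l ^ (e_l)` is not `1` modulo `9` if the norms of the `a_l` are `r_l`. -/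
def Admissible {M : ℕ} (r : Fin M → ℕ) (e : Fin M → ZMod 3) : Prop :=
  (∏ l, r l ^ (e l).val) % 9 ≠ 1

/-- A set of admissible exponents which does not contain `e` and `-e` at the same time (`E_D` and
`E_(D ^ 2)` are isogenous). -/
def Independent {M : ℕ} (r : Fin M → ℕ) (L : Finset (Fin M → ZMod 3)) : Prop :=
  ∀ e ∈ L, Admissible r e ∧ -e ∉ L

/-- The admissible exponents up to sign: those for which the norm of `∏ a_l ^ (e_l)` is `4` modulo `9`. -/
noncomputable def full {M : ℕ} (r : Fin M → ℕ) : Finset (Fin M → ZMod 3) :=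
  Finset.univ.filter fun e => (∏ l, r l ^ (e l).val) % 9 = 4

/-- `∏_{i ≥ 0} (1 - 3^{-(2 i + 1)}) / ((3 - 1) (9 - 1) ⋯ (3 ^ r - 1))`. -/
noncomputable def prob (r : ℕ) : ℝ :=
  (∏' i : ℕ, (1 - (1 / 3 : ℝ) ^ (2 * i + 1))) / ∏ i ∈ Finset.range r, ((3 : ℝ) ^ (i + 1) - 1)

/-- The constant `C_{p,d} = ∏_{j ≥ 0} (1 + p^{-j})^{-1} ∏_{i = 1}^d p / (p^i - 1)` of Poonen and Rains. -/
noncomputable def PRConst (p d : ℕ) : ℝ :=
  (∏' j : ℕ, (1 + (1 / (p : ℝ)) ^ j)⁻¹) * ∏ i ∈ Finset.Icc 1 d, (p : ℝ) / ((p : ℝ) ^ i - 1)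

/-- The share of the `e ∈ L` with `#Sel_{√-3}(E_D) = 3 ^ (ρ + 1)`, `D = ∏ a_l ^ (e_l)`. -/
noncomputable def share {K : Type} [Field K] [NumberField K] {M : ℕ}
    (L : Finset (Fin M → ZMod 3)) (ρ : ℕ) (a : Fin M → 𝓞 K) : ℝ :=
  ((L.filter fun e => (SelRoot ((twist a e : 𝓞 K) : K)).ncard = 3 ^ (ρ + 1)).card : ℝ) /
    (L.card : ℝ)

end Pool.Agent.H451.TB
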