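import Mathlib

/-!
# The variance of the number of the events
-/

set_option autoImplicit false

open scoped Classical

namespace Pool.Agent.H451.TB

/-- TB-VAR: the limit of the variance of the share of the events `Q e`, `e ∈ L`, which are asymptotically
pairwise independent with the same limit `p` of the probabilities.

Proof. With `n = (A X).ncard > 0`, `1_e` the indicator function of `Q e` and `l = L.card`,
`(1 / n) ∑_a ((1 / l) ∑_e 1_e(a) - p) ^ 2 = (1 / l ^ 2) ∑_{e, e'} P(e, e') - (2 p / l) ∑_e P(e) + p ^ 2`, where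
`P(e, e')`, `P(e)` are the proportions in `h2`, `h1` (`P(e, e) = P(e)`); it tends to
`(1 / l ^ 2) (l p + l (l - 1) p ^ 2) - 2 p ^ 2 + p ^ 2 = p (1 - p) / l`. (Turn `A X` into a finset with `hA X`:
`finsum_mem_eq_finite_toFinset_sum`, `Set.ncard_eq_toFinset_card`.) -/
def S_VAR : Prop := ∀ {α ι : Type} (A : ℕ → Set α) (L : Finset ι) (Q : ι → α → Prop) (p : ℝ),
  (∀ X, (A X).Finite) → L.Nonempty → (∃ X₀ : ℕ, ∀ X : ℕ, X₀ ≤ X → 0 < (A X).ncard) →
  (∀ e ∈ L, Filter.Tendsto (fun X : ℕ => ({a | a ∈ A X ∧ Q e a}.ncard : ℝ) / ((A X).ncard : ℝ))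
    Filter.atTop (nhds p)) →
  (∀ e ∈ L, ∀ e' ∈ L, e ≠ e' → Filter.Tendsto (fun X : ℕ =>
    ({a | a ∈ A X ∧ Q e a ∧ Q e' a}.ncard : ℝ) / ((A X).ncard : ℝ)) Filter.atTop (nhds (p ^ 2))) →
  Filter.Tendsto (fun X : ℕ =>
    (∑ᶠ a ∈ A X, (((L.filter fun e => Q e a).card : ℝ) / (L.card : ℝ) - p) ^ 2) /
      ((A X).ncard : ℝ)) Filter.atTop (nhds (p * (1 - p) / (L.card : ℝ)))

end Pool.Agent.H451.TB
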