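import Mathlib
import Pool.Agent.H451.JR.Fin
import Pool.Graph.R_seed8.R419.KL.Sel3

/-!
# The twists by all the monomials in independent random elements: translation
-/

set_option autoImplicit false
set_option linter.unusedVariables false
set_option linter.unusedSectionVars false

namespace Pool.Agent.H451.TB

open NumberField IsDedekindDomain Finset
open scoped Classical

open Pool.Agent.Y692.QS (Ei w toC nr)
open Pool.Agent.Y715.T.RecG (Pq)
open Pool.Agent.Y715.T.Rec (cs)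
open Pool.Agent.XL6 (SelK)
open Pool.Agent.H451.BB
open Pool.Agent.H451.CubT
open Pool.Agent.H451.JL (F sw nW GW eD)
open Pool.Agent.H451.JLM (NP)
open Pool.Agent.H451.JB hiding t_KEY S_KEY S_DQ S_BOX t_DQ t_BOX t_DQ'
open Pool.Agent.Y699.E (nrm nrm_cast nrm_mul nrm_one)
open Pool.Agent.Y703.XK (SS c9)
open Pool.Agent.Y550.XK.NS (nrm_prod mod_iff)

/-- the monomial `∏ a_l ^ (e_l)` -/
def mono {R : Type} [CommRing R] {M : ℕ} (a : Fin M → R) (e : Fin M → ZMod 3) : R :=
  ∏ l, a l ^ (e l).val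

section tuple
variable {M k : ℕ} (W : Fin k → Fin M → F) (S : Fin M → Finset Ei) (i : Fin k)

/-- the exponent of a prime in the monomial -/
noncomputable def exW (π : Ei) : ℕ := ∑ l, if π ∈ S l then (W i l).val else 0

theorem exW_cast (π : Ei) : ((exW W S i π : ℕ) : F) = wT W S i π := by
  unfold exW wT
  push_cast
  refine Finset.sum_congr rfl fun l _ => ?_
  split_ifs
  · rw [ZMod.natCast_val, ZMod.cast_id', id]
  · rfl

theorem mono_ex : mono (fun l => ∏ π ∈ S l, π) (W i) = ∏ π ∈ UN S, π ^ exW W S i π := by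
  unfold mono
  have h3 : ∀ l, (∏ π ∈ S l, π) ^ (W i l).val =
      ∏ π ∈ UN S, π ^ (if π ∈ S l then (W i l).val else 0) := by
    intro l
    have h4 : S l ⊆ UN S := fun π hπ => (mem_UN S).2 ⟨l, hπ⟩
    rw [← Finset.prod_subset h4 (f := fun π => π ^ (if π ∈ S l then (W i l).val else 0))]
    · rw [← Finset.prod_pow]
      refine Finset.prod_congr rfl fun π hπ => ?_
      rw [if_pos hπ]
    · intro π _ hπ
      rw [if_neg hπ, pow_zero]
  rw [Finset.prod_congr rfl fun l _ => h3 l, Finset.prod_comm]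
  refine Finset.prod_congr rfl fun π _ => ?_
  unfold exW
  rw [Finset.prod_pow_eq_pow_sum]

/-- the cube -/
theorem mono_cube : mono (fun l => ∏ π ∈ S l, π) (W i) =
    (∏ π ∈ UN S, π ^ (exW W S i π / 3)) ^ 3 * eD 1 (wT W S i) (UN S) := by
  rw [mono_ex, eD_all, ← Finset.prod_pow, ← Finset.prod_mul_distrib]
  refine Finset.prod_congr rfl fun π _ => ?_
  rw [← exW_cast, ZMod.val_natCast, ← pow_mul, ← pow_add]
  congr 1
  omega

theorem nr_mono (hS : ∀ l, ∀ π ∈ S l, Pq π) :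
    (9 : ℤ) ∣ nr (mono (fun l => ∏ π ∈ S l, π) (W i)) - 1 ↔
      (9 : ℤ) ∣ nr (eD 1 (wT W S i) (UN S)) - 1 := by
  rw [mod_iff, mod_iff, mono_cube, nrm_mul, nrm_pow]
  have h1 : nrm (∏ π ∈ UN S, π ^ (exW W S i π / 3)) % 3 = 1 := by
    rw [nrm_prodG]
    refine prod_mod3 fun π hπ => ?_
    obtain ⟨l, hl⟩ := (mem_UN S).1 hπ
    rw [nrm_pow, Nat.pow_mod, nrm_mod3 (hS l π hl).three, one_pow]
    rfl
  rw [Nat.mul_mod, cube_mod9 h1, one_mul, Nat.mod_mod]

/-- the norm of a monomial modulo `9` -/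
theorem nrm_mono (r : Fin M → ℕ) (hr : ∀ l, (∏ π ∈ S l, nrm π) % 9 = r l) :
    nrm (mono (fun l => ∏ π ∈ S l, π) (W i)) % 9 = (∏ l, r l ^ (W i l).val) % 9 := by
  unfold mono
  rw [nrm_prodG, Finset.prod_nat_mod, Finset.prod_nat_mod univ 9 fun l => r l ^ (W i l).val]
  congr 1
  refine Finset.prod_congr rfl fun l _ => ?_
  rw [nrm_pow, Nat.pow_mod, Nat.pow_mod (r l), ← hr l, nrm_prod, Nat.mod_mod]

end tuple

section K
variable {K : Type} [Field K] [NumberField K] [IsCyclotomicExtension {3} ℚ K] (j : Ei ≃+* 𝓞 K)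

theorem mono_map {M : ℕ} (a : Fin M → Ei) (e : Fin M → ZMod 3) :
    mono (fun l => j (a l)) e = j (mono a e) := by
  unfold mono
  rw [map_prod]
  refine Finset.prod_congr rfl fun l _ => ?_
  rw [map_pow]

/-- an element of norm `4` or `7` modulo `9` is not a cube -/
theorem not_cube {z : Ei} (h3 : nrm z % 3 = 1) (h9 : ¬ (9 : ℤ) ∣ nr z - 1) (t : K) :
    t ^ 3 ≠ ((j z : 𝓞 K) : K) := by
  intro h
  have hint : IsIntegral ℤ t := by
    have h1 : IsIntegral ℤ (t ^ 3) := by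
      rw [h]
      exact (j z).isIntegral_coe
    exact IsIntegral.of_pow (by norm_num) h1
  obtain ⟨s, hs⟩ : ∃ s : 𝓞 K, (s : K) = t := ⟨⟨t, hint⟩, rfl⟩
  obtain ⟨x, rfl⟩ := j.surjective s
  rw [← hs] at h
  have h2 : j (x ^ 3) = j z := by
    rw [map_pow]
    exact_mod_cast h
  have h4 : x ^ 3 = z := j.injective h2
  apply h9
  rw [mod_iff, ← h4, nrm_pow]
  apply cube_mod9
  have h5 : nrm x ^ 3 % 3 = 1 := by rw [← nrm_pow, h4, h3]
  have h6 : nrm x % 3 < 3 := Nat.mod_lt _ (by norm_num)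
  rw [Nat.pow_mod] at h5
  interval_cases nrm x % 3 <;> simp_all

end K

end Pool.Agent.H451.TB
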