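import Mathlib
import Pool.Agent.H451.TB.Tr
import Pool.Agent.H451.TB.Def
import Pool.Agent.H451.TB.Stm

/-!
# The joint law for the twists by all the monomials
-/

set_option autoImplicit false
set_option linter.unusedVariables false
set_option linter.unusedSectionVars false

namespace Pool.Agent.H451.TB

open NumberField IsDedekindDomain Finset
open scoped Classical

open Pool.Agent.Y692.QS (Ei w toC nr)
open Pool.Agent.Y715.T.RecG (Pq)
open Pool.Agent.Y715.T.Rec (cs)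
open Pool.Agent.XL6 (SelK)
open Pool.Agent.H451.BB
open Pool.Agent.H451.CubT
open Pool.Agent.H451.JL (F sw nW GW eD)
open Pool.Agent.H451.JLM (NP)
open Pool.Agent.H451.JB hiding t_KEY S_KEY S_DQ S_BOX t_DQ t_BOX t_DQ'
open Pool.Agent.H451.JR (GR rank_nW law)
open Pool.Agent.Y699.E (nrm nrm_cast nrm_mul nrm_one)
open Pool.Agent.Y703.XK (SS c9)
open Pool.Agent.Y703.XL (cr)
open Pool.Agent.Y550.XK.NS (nrm_prod mod_iff)

theorem prob_eq : prob = cr := rfl

section K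
variable {K : Type} [Field K] [NumberField K] [IsCyclotomicExtension {3} ℚ K] (j : Ei ≃+* 𝓞 K)

theorem condT_single {M : ℕ} (r : Fin M → ℕ) (S : Fin M → Finset Ei) :
    CondT {r} S ↔ ∀ l, (∏ π ∈ S l, nrm π) % 9 = r l := by
  unfold CondT
  rw [Set.mem_singleton_iff, funext_iff]

/-- the Selmer groups of a tuple -/
theorem ranks_mono {M k : ℕ} {r : Fin M → ℕ} {S : Fin M → Finset Ei}
    (hS : ∀ l, ∀ π ∈ S l, Pq π) (hc : CondT {r} S) (W : Fin k → Fin M → F)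
    (hW : ∀ i, Admissible r (W i)) (i : Fin k) :
    (SelK ((twist (fun l => j (∏ π ∈ S l, π)) (W i) : 𝓞 K) : K)).ncard =
      nW (wT W S i) (UN S) ∧
    ∃ ρ s : ℕ, (SelK ((twist (fun l => j (∏ π ∈ S l, π)) (W i) : 𝓞 K) : K)).ncard =
        3 ^ (ρ + 1) ∧
      Nat.card (Sel3 ((twist (fun l => j (∏ π ∈ S l, π)) (W i) : 𝓞 K) : K)) = 3 ^ (s + 1) ∧
      ρ ≤ s ∧ s ≤ 2 * ρ ∧
      Module.finrank ℤ (E ((twist (fun l => j (∏ π ∈ S l, π)) (W i) : 𝓞 K) : K)).toAffine.Point ≤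
        2 * ρ := by
  have hc' := (condT_single r S).1 hc
  have hU : ∀ π ∈ UN S, Pq π := fun π hπ => by
    obtain ⟨l, hl⟩ := (mem_UN S).1 hπ
    exact hS l π hl
  have h4 : twist (fun l => j (∏ π ∈ S l, π)) (W i) =
      j (mono (fun l => ∏ π ∈ S l, π) (W i)) := mono_map j _ _
  have h6 : ∏ π ∈ UN S, π ^ (exW W S i π / 3) ≠ 0 := by
    rw [Finset.prod_ne_zero_iff]
    exact fun π hπ => pow_ne_zero _ (hU π hπ).prime.ne_zero
  have h8 : ¬ (9 : ℤ) ∣ nr (mono (fun l => ∏ π ∈ S l, π) (W i)) - 1 := by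
    rw [mod_iff, nrm_mono W S i r hc']
    exact hW i
  have h9 : ¬ (9 : ℤ) ∣ nr (eD 1 (wT W S i) (UN S)) - 1 := by
    rwa [← nr_mono W S i hS]
  have h3 : nrm (mono (fun l => ∏ π ∈ S l, π) (W i)) % 3 = 1 := by
    rw [mono_ex, nrm_prodG]
    refine prod_mod3 fun π hπ => ?_
    rw [nrm_pow, Nat.pow_mod, nrm_mod3 (hU π hπ).three, one_pow]
    rfl
  have hcube := fun t : K => not_cube j h3 h8 t
  rw [h4]
  have h10 := selK_nW (K := K) j hU h6 h9
  obtain ⟨ρ, h11, h12⟩ := rank_nW (K := K) j hU h6 h9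
  rw [← mono_cube W S i] at h10 h11 h12
  refine ⟨h10, ?_⟩
  obtain ⟨ω, hω⟩ : ∃ ω : K, ω ^ 2 + ω + 1 = 0 := by
    have hww : (w : Ei) ^ 2 + w + 1 = 0 := by decide
    refine ⟨((j w : 𝓞 K) : K), ?_⟩
    have h2 := congrArg (fun z => ((j z : 𝓞 K) : K)) hww
    simp only [map_add, map_pow, map_one, map_zero] at h2
    exact h2
  have hD : ((j (mono (fun l => ∏ π ∈ S l, π) (W i)) : 𝓞 K) : K) ≠ 0 := by
    intro h0
    exact hcube 0 (by rw [h0]; ring)
  have h13 := Pool.Agent.Y703.XL.Inf.sel_card hD hω hcube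
  have h14 : (Pool.Agent.Y703.XL.Inf.killed ω
      ((j (mono (fun l => ∏ π ∈ S l, π) (W i)) : 𝓞 K) : K)).ncard = 3 ^ ρ := by
    have h7 : (SelK ((j (mono (fun l => ∏ π ∈ S l, π) (W i)) : 𝓞 K) : K)).ncard =
        3 * (Pool.Agent.Y703.XL.Inf.killed ω
          ((j (mono (fun l => ∏ π ∈ S l, π) (W i)) : 𝓞 K) : K)).ncard := h13
    rw [h11, pow_succ'] at h7
    exact (Nat.eq_of_mul_eq_mul_left (by norm_num) h7).symm
  obtain ⟨s, hs, hrs, hs2⟩ := Pool.Agent.R419.KL.sel3_facts hD hω hcube h14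
  exact ⟨ρ, s, h11, hs, hrs, hs2, h12⟩

/-- the box -/
theorem boxK_eq (hj : ∀ z : Ei, Algebra.norm ℤ (j z) = nr z) {M : ℕ} {r : Fin M → ℕ}
    (hr : ∀ l, r l = 4 ∨ r l = 7) (X : ℕ) (P : (Fin M → 𝓞 K) → Prop) :
    {a | a ∈ Box K r X ∧ P a}.ncard =
      ((TT M X).filter fun S => CondT {r} S ∧ P fun l => j (∏ π ∈ S l, π)).card := by
  have h1 : {a | a ∈ Box K r X ∧ P a} =
      {a : Fin M → 𝓞 K | (∀ i, Cls (a i) ∧ Algebra.norm ℤ (a i) ≤ X) ∧
        ((∀ i, Algebra.norm ℤ (a i) % 9 = r i) ∧ P a)} := by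
    ext a
    simp only [Box, Set.mem_ofPred_eq]
    constructor
    · rintro ⟨h, hP⟩
      refine ⟨fun i => ⟨⟨(h i).1, (h i).2.1, ?_⟩, (h i).2.2.1⟩, fun i => (h i).2.2.2, hP⟩
      have h2 := (h i).2.2.2
      rcases hr i with h3 | h3 <;> rw [h3] at h2 <;> push_cast at h2 <;> omega
    · rintro ⟨h, h', hP⟩
      exact ⟨fun i => ⟨(h i).1.1, (h i).1.2.1, (h i).2, h' i⟩, hP⟩
  rw [h1, box_eq j hj M X fun a => (∀ i, Algebra.norm ℤ (a i) % 9 = r i) ∧ P a]
  have h2 : ((TT M X).filter fun S => (∀ i, Algebra.norm ℤ (j (∏ π ∈ S i, π)) % 9 = r i) ∧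
      P fun l => j (∏ π ∈ S l, π)) = (TT M X).filter fun S => CondT {r} S ∧
      P fun l => j (∏ π ∈ S l, π) := by
    refine filter_congr fun S hS => ?_
    rw [condT_single]
    refine and_congr_left fun _ => forall_congr' fun l => ?_
    rw [hj, ← nrm_prod]
    have h3 : (nrm (∏ π ∈ S l, π) : ℤ) = nr (∏ π ∈ S l, π) := nrm_cast _
    rw [← h3]
    constructor
    · intro h4
      exact_mod_cast h4
    · intro h4
      exact_mod_cast h4
  convert congrArg Finset.card h2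

end K

/-- rows of a table of exponents which are not proportional -/
theorem NP_of {M k : ℕ} {r : Fin M → ℕ} (W : Fin k → Fin M → ZMod 3)
    (hinj : Function.Injective W) (hW : ∀ i, Admissible r (W i)) (hneg : ∀ i l, W l ≠ -W i) :
    NP W := by
  have h0 : ∀ i, W i ≠ 0 := by
    intro i h
    apply hW i
    rw [h]
    simp
  refine ⟨fun i => ?_, fun i l hil δ => ?_⟩
  · by_contra h
    push Not at h
    exact h0 i (funext h)
  · by_contra h
    push Not at h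
    have h1 : W i = δ • W l := funext fun m => h m
    have h2 : δ = 0 ∨ δ = 1 ∨ δ = -1 := by
      have : ∀ x : ZMod 3, x = 0 ∨ x = 1 ∨ x = -1 := by decide
      exact this δ
    rcases h2 with rfl | rfl | rfl
    · rw [zero_smul] at h1
      exact h0 i h1
    · rw [one_smul] at h1
      exact hil (hinj h1)
    · rw [neg_smul, one_smul] at h1
      exact hneg l i h1

theorem main_mono (K : Type) [Field K] [NumberField K] [IsCyclotomicExtension {3} ℚ K] (M : ℕ)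
    (r : Fin M → ℕ) (hr : ∀ l, r l = 4 ∨ r l = 7) :
    (∀ X : ℕ, (Box K r X).Finite) ∧
    (∃ c : ℝ, 0 < c ∧ ∃ X₀ : ℕ, ∀ X : ℕ, X₀ ≤ X →
      c * (X : ℝ) ^ M ≤ ((Box K r X).ncard : ℝ)) ∧
    (∀ X : ℕ, ∀ a ∈ Box K r X, ∀ e, Admissible r e → ∃ ρ s : ℕ,
      (SelRoot ((twist a e : 𝓞 K) : K)).ncard = 3 ^ (ρ + 1) ∧
      Nat.card (Sel3 ((twist a e : 𝓞 K) : K)) = 3 ^ (s + 1) ∧ ρ ≤ s ∧ s ≤ 2 * ρ ∧
      rank ((twist a e : 𝓞 K) : K) ≤ 2 * ρ) ∧
    ∀ L : Finset (Fin M → ZMod 3), Independent r L → ∀ ρ : (Fin M → ZMod 3) → ℕ,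
      Filter.Tendsto (fun X : ℕ => ({a | a ∈ Box K r X ∧ ∀ e ∈ L,
        (SelRoot ((twist a e : 𝓞 K) : K)).ncard = 3 ^ (ρ e + 1)}.ncard : ℝ) /
        ((Box K r X).ncard : ℝ)) Filter.atTop (nhds (∏ e ∈ L, prob (ρ e))) := by
  obtain ⟨⟨j, hj⟩, -⟩ := Pool.Agent.Y455.CTK.jex K
  have hbox : ∀ X : ℕ, (Box K r X).ncard = ((TT M X).filter (CondT {r})).card := by
    intro X
    have h1 := boxK_eq j hj hr X fun _ => True
    simp only [and_true] at h1
    exact h1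
  have hex : ∀ X : ℕ, ∀ a ∈ Box K r X, ∃ S ∈ TT M X, CondT {r} S ∧
      (fun l => j (∏ π ∈ S l, π)) = a := by
    intro X a ha
    obtain ⟨S, hS, rfl⟩ := box_ex j hj X a fun i => by
      obtain ⟨h1, h2, h3, h4⟩ := ha i
      refine ⟨⟨h1, h2, ?_⟩, h3⟩
      rcases hr i with h5 | h5 <;> rw [h5] at h4 <;> push_cast at h4 <;> omega
    refine ⟨S, hS, ?_, rfl⟩
    rw [condT_single]
    intro l
    have h4 := (ha l).2.2.2
    simp only [hj] at h4
    have h3 : (nrm (∏ π ∈ S l, π) : ℤ) = nr (∏ π ∈ S l, π) := nrm_cast _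
    rw [← h3, nrm_prod] at h4
    exact_mod_cast h4
  refine ⟨fun X => ?_, ?_, ?_, ?_⟩
  · refine Set.Finite.subset (Finset.finite_toSet ((TT M X).image fun S l => j (∏ π ∈ S l, π)))
      fun a ha => ?_
    obtain ⟨S, hS, -, rfl⟩ := hex X a ha
    rw [Finset.mem_coe, Finset.mem_image]
    exact ⟨S, hS, rfl⟩
  · obtain ⟨c, X₀, hc, h⟩ := DQp.low t_LOW {r} ⟨r, rfl, hr⟩
    exact ⟨c, hc, X₀, fun X hX => by rw [hbox X]; exact h X hX⟩
  · intro X a ha e he
    obtain ⟨S, hS, hc, rfl⟩ := hex X a ha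
    exact (ranks_mono j (TT_Pq hS) hc (fun _ : Fin 1 => e) (fun _ => he) 0).2
  · intro L hL ρ
    obtain ⟨ψ⟩ : Nonempty (Fin L.card ≃ L) := ⟨L.equivFin.symm⟩
    have hW : ∀ i, Admissible r (ψ i : Fin M → ZMod 3) := fun i => (hL _ (ψ i).2).1
    have hNP : NP (fun i => (ψ i : Fin M → ZMod 3)) :=
      NP_of _ (Subtype.val_injective.comp ψ.injective) hW fun i l h =>
        (hL _ (ψ i).2).2 (by rw [← h]; exact (ψ l).2)
    have hlim := law L.card M (fun i => (ψ i : Fin M → ZMod 3)) (fun i => ρ (ψ i)) {r} hNP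
      ⟨r, rfl, hr⟩
    have h1 : ∀ X : ℕ, ({a | a ∈ Box K r X ∧ ∀ e ∈ L,
        (SelRoot ((twist a e : 𝓞 K) : K)).ncard = 3 ^ (ρ e + 1)}.ncard : ℝ) =
        (((TT M X).filter fun S => CondT {r} S ∧ GR (fun i => ρ (ψ i))
          (wT (fun i => (ψ i : Fin M → ZMod 3)) S) (UN S)).card : ℝ) := by
      intro X
      rw [boxK_eq j hj hr X fun a => ∀ e ∈ L,
        (SelRoot ((twist a e : 𝓞 K) : K)).ncard = 3 ^ (ρ e + 1)]
      refine congrArg _ ?_
      have hfc : ((TT M X).filter fun S => CondT {r} S ∧ ∀ e ∈ L,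
          (SelRoot ((twist (fun l => j (∏ π ∈ S l, π)) e : 𝓞 K) : K)).ncard = 3 ^ (ρ e + 1)) =
          (TT M X).filter fun S => CondT {r} S ∧ GR (fun i => ρ (ψ i))
          (wT (fun i => (ψ i : Fin M → ZMod 3)) S) (UN S) := by
        refine filter_congr fun S hS => ?_
        refine and_congr_right fun hc => ?_
        have h2 := fun i => (ranks_mono j (TT_Pq hS) hc (fun i => (ψ i : Fin M → ZMod 3)) hW i).1
        constructor
        · intro h i
          rw [← h2 i]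
          exact h _ (ψ i).2
        · intro h e he
          obtain ⟨i, hi⟩ := ψ.surjective ⟨e, he⟩
          have hi' : (ψ i : Fin M → ZMod 3) = e := congrArg Subtype.val hi
          have h3 := h i
          rw [← h2 i] at h3
          beta_reduce at h3
          rw [hi'] at h3
          exact h3
      convert congrArg Finset.card hfc
    have h4 : ∏ e ∈ L, prob (ρ e) = ∏ i, cr (ρ (ψ i)) := by
      rw [← Finset.prod_coe_sort, ← Equiv.prod_comp ψ, prob_eq]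
    simp only [h1, hbox]
    rw [h4]
    exact hlim

end Pool.Agent.H451.TB
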