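import Pool.Agent.H451.TB.Stm

/-!
# The variance of the number of the events: proof
-/

set_option autoImplicit false

open scoped Classical

namespace Pool.Agent.H451.TB

/-- The count of the elements with a property. -/
theorem var_count {α : Type} (S : Set α) (hS : S.Finite) (R : α → Prop) :
    ({a | a ∈ S ∧ R a}.ncard : ℝ) = ∑ a ∈ hS.toFinset, if R a then (1 : ℝ) else 0 := by
  have h : {a | a ∈ S ∧ R a} = ((hS.toFinset.filter R : Finset α) : Set α) := by
    ext a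
    simp
  rw [h, Set.ncard_coe_finset, Finset.natCast_card_filter]

/-- The expansion of the square. -/
theorem var_expand {α ι : Type} (F : Finset α) (L : Finset ι) (f : ι → α → ℝ) (p l n : ℝ)
    (hn : n = (F.card : ℝ)) (hn0 : n ≠ 0) (hl : l ≠ 0) :
    (∑ a ∈ F, ((∑ e ∈ L, f e a) / l - p) ^ 2) / n =
      1 / l ^ 2 * (∑ e ∈ L, ∑ e' ∈ L, (∑ a ∈ F, f e a * f e' a) / n) -
        2 * p / l * (∑ e ∈ L, (∑ a ∈ F, f e a) / n) + p ^ 2 := by
  have e1 : ∑ a ∈ F, ((∑ e ∈ L, f e a) / l - p) ^ 2 =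
      1 / l ^ 2 * (∑ a ∈ F, (∑ e ∈ L, f e a) ^ 2) - 2 * p / l * (∑ a ∈ F, ∑ e ∈ L, f e a) +
        n * p ^ 2 := by
    have h0 : ∀ a ∈ F, ((∑ e ∈ L, f e a) / l - p) ^ 2 =
        1 / l ^ 2 * (∑ e ∈ L, f e a) ^ 2 - 2 * p / l * (∑ e ∈ L, f e a) + p ^ 2 := by
      intro a _
      field_simp
      ring
    rw [Finset.sum_congr rfl h0, Finset.sum_add_distrib, Finset.sum_sub_distrib,
      ← Finset.mul_sum, ← Finset.mul_sum, Finset.sum_const, nsmul_eq_mul, hn]
  have e2 : ∑ a ∈ F, (∑ e ∈ L, f e a) ^ 2 = ∑ e ∈ L, ∑ e' ∈ L, ∑ a ∈ F, f e a * f e' a := by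
    have h0 : ∀ a ∈ F, (∑ e ∈ L, f e a) ^ 2 = ∑ e ∈ L, ∑ e' ∈ L, f e a * f e' a := by
      intro a _
      rw [sq, Finset.sum_mul_sum]
    rw [Finset.sum_congr rfl h0, Finset.sum_comm]
    refine Finset.sum_congr rfl fun e _ => ?_
    rw [Finset.sum_comm]
  have e3 : ∑ a ∈ F, ∑ e ∈ L, f e a = ∑ e ∈ L, ∑ a ∈ F, f e a := Finset.sum_comm
  have e4 : ∑ e ∈ L, ∑ e' ∈ L, (∑ a ∈ F, f e a * f e' a) / n =
      (∑ e ∈ L, ∑ e' ∈ L, ∑ a ∈ F, f e a * f e' a) / n := by
    rw [Finset.sum_div]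
    refine Finset.sum_congr rfl fun e _ => ?_
    rw [Finset.sum_div]
  have e5 : ∑ e ∈ L, (∑ a ∈ F, f e a) / n = (∑ e ∈ L, ∑ a ∈ F, f e a) / n := by
    rw [Finset.sum_div]
  rw [e1, e2, e3, e4, e5]
  field_simp

theorem var_double {ι : Type} (L : Finset ι) (p : ℝ) :
    ∑ e ∈ L, ∑ e' ∈ L, (if e = e' then p else p ^ 2) =
      (L.card : ℝ) * (p - p ^ 2) + (L.card : ℝ) ^ 2 * p ^ 2 := by
  have h : ∀ e ∈ L, ∑ e' ∈ L, (if e = e' then p else p ^ 2) =
      (p - p ^ 2) + (L.card : ℝ) * p ^ 2 := by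
    intro e he
    have h1 : ∀ e' ∈ L, (if e = e' then p else p ^ 2) =
        (if e = e' then p - p ^ 2 else 0) + p ^ 2 := by
      intro e' _
      split_ifs <;> ring
    rw [Finset.sum_congr rfl h1, Finset.sum_add_distrib, Finset.sum_ite_eq, if_pos he,
      Finset.sum_const, nsmul_eq_mul]
  rw [Finset.sum_congr rfl h, Finset.sum_const, nsmul_eq_mul]
  ring

theorem t_VAR : S_VAR := by
  intro α ι A L Q p hA hL hpos h1 h2
  obtain ⟨X₀, hX₀⟩ := hpos
  have hl : (L.card : ℝ) ≠ 0 := by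
    exact_mod_cast hL.card_pos.ne'
  have hn : ∀ X, ((A X).ncard : ℝ) = ((hA X).toFinset.card : ℝ) := by
    intro X
    rw [Set.ncard_eq_toFinset_card _ (hA X)]
  have t1 : ∀ e ∈ L, Filter.Tendsto (fun X : ℕ =>
      (∑ a ∈ (hA X).toFinset, if Q e a then (1 : ℝ) else 0) / ((A X).ncard : ℝ))
      Filter.atTop (nhds p) := by
    intro e he
    have h := h1 e he
    simp only [fun X : ℕ => var_count (A X) (hA X) (Q e)] at h
    exact h
  have t2 : ∀ e ∈ L, ∀ e' ∈ L, Filter.Tendsto (fun X : ℕ =>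
      (∑ a ∈ (hA X).toFinset, (if Q e a then (1 : ℝ) else 0) * (if Q e' a then (1 : ℝ) else 0)) /
        ((A X).ncard : ℝ)) Filter.atTop (nhds (if e = e' then p else p ^ 2)) := by
    intro e he e' he'
    by_cases hee : e = e'
    · subst hee
      rw [if_pos rfl]
      refine (t1 e he).congr fun X => ?_
      congr 1
      refine Finset.sum_congr rfl fun a _ => ?_
      split_ifs <;> norm_num
    · rw [if_neg hee]
      have h := h2 e he e' he' hee
      simp only [fun X : ℕ => var_count (A X) (hA X) (fun a => Q e a ∧ Q e' a)] at h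
      refine h.congr fun X => ?_
      congr 1
      refine Finset.sum_congr rfl fun a _ => ?_
      by_cases hx : Q e a <;> by_cases hy : Q e' a <;> simp [hx, hy]
  have t3 := (((tendsto_finsetSum L fun e he => tendsto_finsetSum L fun e' he' =>
    t2 e he e' he').const_mul (1 / (L.card : ℝ) ^ 2)).sub
    ((tendsto_finsetSum L fun e he => t1 e he).const_mul (2 * p / (L.card : ℝ)))).add_const (p ^ 2)
  have hlim : 1 / (L.card : ℝ) ^ 2 * (∑ e ∈ L, ∑ e' ∈ L, (if e = e' then p else p ^ 2)) -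
      2 * p / (L.card : ℝ) * (∑ _e ∈ L, p) + p ^ 2 = p * (1 - p) / (L.card : ℝ) := by
    rw [var_double, Finset.sum_const, nsmul_eq_mul]
    field_simp
    ring
  rw [hlim] at t3
  refine t3.congr' ?_
  filter_upwards [Filter.eventually_ge_atTop X₀] with X hX
  have hn0 : ((A X).ncard : ℝ) ≠ 0 := by
    exact_mod_cast (hX₀ X hX).ne'
  have hsum : ∑ᶠ a ∈ A X, (((L.filter fun e => Q e a).card : ℝ) / (L.card : ℝ) - p) ^ 2 =
      ∑ a ∈ (hA X).toFinset,
        ((∑ e ∈ L, if Q e a then (1 : ℝ) else 0) / (L.card : ℝ) - p) ^ 2 := by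
    rw [finsum_mem_eq_finite_toFinset_sum _ (hA X)]
    refine Finset.sum_congr rfl fun a _ => ?_
    rw [Finset.natCast_card_filter]
  rw [hsum]
  exact (var_expand (hA X).toFinset L (fun e a => if Q e a then (1 : ℝ) else 0) p (L.card : ℝ)
    ((A X).ncard : ℝ) (hn X) hn0 hl).symm

end Pool.Agent.H451.TB
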