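import Mathlib
import Pool.Agent.H451.TB.Fin
import Pool.Agent.H451.TB.VAR
import Pool.Graph.R_pool_sql_team_seeded_2aa45f1a.Q243.PR.Eul

/-!
# The joint law for the twists by all the monomials: the theorem
-/

set_option autoImplicit false
set_option linter.unusedVariables false

namespace Pool.Agent.H451.TB

open NumberField Finset
open scoped Classical

/-- the logarithm of `4`, `7` -/
def lam (x : ℕ) : ZMod 3 := if x = 4 then 1 else 2

theorem res_pow {M : ℕ} {r : Fin M → ℕ} (hr : ∀ l, r l = 4 ∨ r l = 7) (e : Fin M → ZMod 3) :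
    (∏ l, r l ^ (e l).val) % 9 = 4 ^ (∑ l, e l * lam (r l) : ZMod 3).val % 9 := by
  have h : ∀ s : Finset (Fin M), (∏ l ∈ s, r l ^ (e l).val) % 9 =
      4 ^ (∑ l ∈ s, e l * lam (r l) : ZMod 3).val % 9 := by
    intro s
    induction s using Finset.induction_on with
    | empty => simp
    | insert x s hx ih =>
      rw [Finset.prod_insert hx, Finset.sum_insert hx, Nat.mul_mod, ih]
      have h1 : r x ^ (e x).val % 9 = 4 ^ (e x * lam (r x)).val % 9 := by
        rcases hr x with h | h <;> rw [h] <;>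
        · generalize e x = y
          revert y
          decide
      rw [h1]
      generalize e x * lam (r x) = a
      generalize (∑ l ∈ s, e l * lam (r l)) = b
      revert a b
      decide
  exact h univ

theorem full_iff {M : ℕ} {r : Fin M → ℕ} (hr : ∀ l, r l = 4 ∨ r l = 7) (e : Fin M → ZMod 3) :
    e ∈ full r ↔ ∑ l, e l * lam (r l) = 1 := by
  unfold full
  rw [mem_filter, res_pow hr]
  generalize (∑ l, e l * lam (r l)) = b
  simp only [mem_univ, true_and]
  revert b
  decide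

theorem full_indep {M : ℕ} {r : Fin M → ℕ} (hr : ∀ l, r l = 4 ∨ r l = 7) :
    Independent r (full r) := by
  intro e he
  refine ⟨?_, fun h => ?_⟩
  · unfold Admissible
    unfold full at he
    rw [mem_filter] at he
    omega
  · rw [full_iff hr] at he h
    have h1 : ∑ l, (-e) l * lam (r l) = -∑ l, e l * lam (r l) := by
      rw [← Finset.sum_neg_distrib]
      exact Finset.sum_congr rfl fun l _ => by rw [Pi.neg_apply, neg_mul]
    rw [h1, he] at h
    exact absurd h (by decide)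

theorem full_card {M : ℕ} (hM : 1 ≤ M) {r : Fin M → ℕ} (hr : ∀ l, r l = 4 ∨ r l = 7) :
    (full r).card = 3 ^ (M - 1) := by
  obtain ⟨f, hf⟩ : ∃ f : (Fin M → ZMod 3) →+ ZMod 3, ∀ e, f e = ∑ l, e l * lam (r l) :=
    ⟨{ toFun := fun e => ∑ l, e l * lam (r l)
       map_zero' := by simp
       map_add' := fun a b => by
        simp only [Pi.add_apply, add_mul, Finset.sum_add_distrib] }, fun _ => rfl⟩
  have hsurj : Function.Surjective f := by
    intro y
    have h0 : lam (r ⟨0, by omega⟩) * lam (r ⟨0, by omega⟩) = 1 := by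
      rcases hr ⟨0, by omega⟩ with h | h <;> rw [h] <;> decide
    refine ⟨Pi.single ⟨0, by omega⟩ (y * lam (r ⟨0, by omega⟩)), ?_⟩
    rw [hf, Finset.sum_eq_single ⟨0, by omega⟩]
    · rw [Pi.single_eq_same, mul_assoc, h0, mul_one]
    · intro l _ hl
      rw [Pi.single_eq_of_ne hl, zero_mul]
    · intro h
      exact absurd (mem_univ _) h
  have h1 : ∀ y : ZMod 3, (univ.filter fun e => f e = y).card =
      (univ.filter fun e => f e = 1).card := by
    intro y
    obtain ⟨x, hx⟩ := hsurj y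
    obtain ⟨z, hz⟩ := hsurj 1
    refine Finset.card_bij' (fun e _ => e - x + z) (fun e _ => e - z + x) ?_ ?_ ?_ ?_
    · intro e he
      rw [mem_filter] at he ⊢
      refine ⟨mem_univ _, ?_⟩
      rw [map_add, map_sub, he.2, hx, hz, sub_self, zero_add]
    · intro e he
      rw [mem_filter] at he ⊢
      refine ⟨mem_univ _, ?_⟩
      rw [map_add, map_sub, he.2, hx, hz, sub_self, zero_add]
    · intro e _
      abel
    · intro e _
      abel
  have h2 : (full r) = univ.filter fun e => f e = 1 := by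
    ext e
    rw [full_iff hr, mem_filter, hf]
    simp
  have h3 : (univ : Finset (Fin M → ZMod 3)).card =
      ∑ y : ZMod 3, (univ.filter fun e => f e = y).card :=
    Finset.card_eq_sum_card_fiberwise fun e _ => mem_univ _
  rw [Finset.sum_congr rfl fun y _ => h1 y, Finset.sum_const, card_univ, card_univ, ZMod.card,
    Fintype.card_fun, ZMod.card, Fintype.card_fin, smul_eq_mul] at h3
  rw [h2]
  obtain ⟨n, rfl⟩ : ∃ n, M = n + 1 := ⟨M - 1, by omega⟩
  rw [pow_succ'] at h3
  rw [Nat.add_sub_cancel]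
  exact (Nat.eq_of_mul_eq_mul_left (by norm_num) h3).symm

theorem const0 : prob 0 = 2 * PRConst 3 0 := by
  have h : prob 0 = 2 * ∏' j : ℕ, (1 + (1 / (3 : ℝ)) ^ j)⁻¹ := by
    have h := Pool.Agent.Q243.PR3.euler (q := 1 / 3) (by norm_num) (by norm_num)
    unfold prob
    rw [← h]
    norm_num
  rw [h]
  unfold PRConst
  simp

theorem final_mono (K : Type) [Field K] [NumberField K] [IsCyclotomicExtension {3} ℚ K] (M : ℕ)
    (r : Fin M → ℕ) (hr : ∀ l, r l = 4 ∨ r l = 7) :
    (∃ c : ℝ, 0 < c ∧ ∃ X₀ : ℕ, ∀ X : ℕ, X₀ ≤ X →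
      c * (X : ℝ) ^ M ≤ ((Box K r X).ncard : ℝ)) ∧
    (∀ X : ℕ, ∀ a ∈ Box K r X, ∀ e, Admissible r e → ∃ ρ s : ℕ,
      (SelRoot ((twist a e : 𝓞 K) : K)).ncard = 3 ^ (ρ + 1) ∧
      Nat.card (Sel3 ((twist a e : 𝓞 K) : K)) = 3 ^ (s + 1) ∧ ρ ≤ s ∧ s ≤ 2 * ρ ∧
      rank ((twist a e : 𝓞 K) : K) ≤ 2 * ρ) ∧
    (1 ≤ M → Independent r (full r) ∧ (full r).card = 3 ^ (M - 1)) ∧
    (HasSum prob 1 ∧ prob 0 = 2 * PRConst 3 0) ∧
    ∀ L : Finset (Fin M → ZMod 3), Independent r L →
      (∀ ρ : (Fin M → ZMod 3) → ℕ, Filter.Tendsto (fun X : ℕ =>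
        ({a | a ∈ Box K r X ∧ ∀ e ∈ L,
          (SelRoot ((twist a e : 𝓞 K) : K)).ncard = 3 ^ (ρ e + 1)}.ncard : ℝ) /
        ((Box K r X).ncard : ℝ)) Filter.atTop (nhds (∏ e ∈ L, prob (ρ e)))) ∧
      Filter.Tendsto (fun X : ℕ =>
        ({a | a ∈ Box K r X ∧ ∀ e ∈ L, Nat.card (Sel3 ((twist a e : 𝓞 K) : K)) = 3}.ncard : ℝ) /
        ((Box K r X).ncard : ℝ)) Filter.atTop (nhds ((2 * PRConst 3 0) ^ L.card)) ∧
      (L.Nonempty → ∀ ρ : ℕ, Filter.Tendsto (fun X : ℕ =>
        (∑ᶠ a ∈ Box K r X, (share L ρ a - prob ρ) ^ 2) / ((Box K r X).ncard : ℝ)) Filter.atTop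
        (nhds (prob ρ * (1 - prob ρ) / (L.card : ℝ)))) := by
  obtain ⟨h1, ⟨c, hc, X₀, hX⟩, h3, h4⟩ := main_mono K M r hr
  refine ⟨⟨c, hc, X₀, hX⟩, h3, fun hM => ⟨full_indep hr, full_card hM hr⟩,
    ⟨Pool.Agent.H451.JR.t_SUM, const0⟩, fun L hL => ⟨h4 L hL, ?_, ?_⟩⟩
  · have h5 := h4 L hL fun _ => 0
    rw [Finset.prod_const, const0] at h5
    have h6 : ∀ X : ℕ, {a | a ∈ Box K r X ∧ ∀ e ∈ L,
        (SelRoot ((twist a e : 𝓞 K) : K)).ncard = 3 ^ (0 + 1)} =
        {a | a ∈ Box K r X ∧ ∀ e ∈ L, Nat.card (Sel3 ((twist a e : 𝓞 K) : K)) = 3} := by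
      intro X
      ext a
      rw [Set.mem_ofPred_eq, Set.mem_ofPred_eq]
      refine and_congr_right fun ha => forall_congr' fun e => forall_congr' fun he => ?_
      obtain ⟨ρ, s, g1, g2, g3, g4, -⟩ := h3 X a ha e (hL e he).1
      rw [g1, g2]
      constructor
      · intro h
        have h7 := Nat.pow_right_injective (by norm_num : 2 ≤ 3) h
        have h8 : s = 0 := by omega
        rw [h8]
        norm_num
      · intro h
        have h9 : 3 ^ (s + 1) = 3 ^ 1 := by rw [h]; norm_num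
        have h7 := Nat.pow_right_injective (by norm_num : 2 ≤ 3) h9
        have h8 : ρ = 0 := by omega
        rw [h8]
    simp only [h6] at h5
    exact h5
  · intro hne ρ
    have hsub : ∀ L' : Finset (Fin M → ZMod 3), L' ⊆ L → Independent r L' := fun L' hs e he =>
      ⟨(hL e (hs he)).1, fun h => (hL e (hs he)).2 (hs h)⟩
    have k1 : ∃ X₀ : ℕ, ∀ X : ℕ, X₀ ≤ X → 0 < (Box K r X).ncard := by
      refine ⟨max X₀ 1, fun X hXX => ?_⟩
      have h5 := hX X (le_trans (le_max_left _ _) hXX)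
      have h6 : (1 : ℝ) ≤ X := by exact_mod_cast le_trans (le_max_right _ _) hXX
      have h7 : (0 : ℝ) < ((Box K r X).ncard : ℝ) := lt_of_lt_of_le (by positivity) h5
      exact_mod_cast h7
    have k2 : ∀ e ∈ L, Filter.Tendsto (fun X : ℕ => ({a | a ∈ Box K r X ∧
        (SelRoot ((twist a e : 𝓞 K) : K)).ncard = 3 ^ (ρ + 1)}.ncard : ℝ) /
        ((Box K r X).ncard : ℝ)) Filter.atTop (nhds (prob ρ)) := by
      intro e he
      have h5 := h4 {e} (hsub _ (Finset.singleton_subset_iff.2 he)) fun _ => ρ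
      rw [Finset.prod_singleton] at h5
      simpa only [Finset.mem_singleton, forall_eq] using h5
    have k3 : ∀ e ∈ L, ∀ e' ∈ L, e ≠ e' → Filter.Tendsto (fun X : ℕ => ({a | a ∈ Box K r X ∧
        (SelRoot ((twist a e : 𝓞 K) : K)).ncard = 3 ^ (ρ + 1) ∧
        (SelRoot ((twist a e' : 𝓞 K) : K)).ncard = 3 ^ (ρ + 1)}.ncard : ℝ) /
        ((Box K r X).ncard : ℝ)) Filter.atTop (nhds (prob ρ ^ 2)) := by
      intro e he e' he' hne'
      have h5 := h4 {e, e'} (hsub _ (by
        intro x hx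
        rw [Finset.mem_insert, Finset.mem_singleton] at hx
        rcases hx with rfl | rfl
        · exact he
        · exact he')) fun _ => ρ
      rw [Finset.prod_pair hne', ← sq] at h5
      simpa only [Finset.mem_insert, Finset.mem_singleton, forall_eq_or_imp, forall_eq] using h5
    have key := t_VAR (Box K r) L (fun e a =>
      (SelRoot ((twist a e : 𝓞 K) : K)).ncard = 3 ^ (ρ + 1)) (prob ρ) h1 hne k1 k2 k3
    unfold share
    convert key

end Pool.Agent.H451.TB
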